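import Mathlib
import Pool.Agent.H17.UFB

set_option autoImplicit false

namespace Pool.Agent.Results.MP_9e6215_co.Exists

/-- the factor of length n of x starting at position i -/
def fac {A : Type} (x : ℕ → A) (i n : ℕ) : List A := (List.range n).map (fun j => x (i + j))

/-- the set of all factors of x -/
def lang {A : Type} (x : ℕ → A) : Set (List A) := {w | ∃ i n, w = fac x i n}

/-- number of (possibly overlapping) occurrences of w in u -/
def occ {A : Type} [DecidableEq A] (u w : List A) : ℕ :=
  ((Finset.range (u.length + 1)).filter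
    (fun k => k + w.length ≤ u.length ∧ (u.drop k).take w.length = w)).card

/-- one constant C balances every factor w of x -/
def UniformlyFactorBalanced {A : Type} [DecidableEq A] (x : ℕ → A) : Prop :=
  ∃ C : ℕ, 1 ≤ C ∧ ∀ w ∈ lang x, ∀ u ∈ lang x, ∀ v ∈ lang x, u.length = v.length →
    |(occ u w : ℤ) - (occ v w : ℤ)| ≤ (C : ℤ)

/-- factor complexity -/
noncomputable def complexity {A : Type} (x : ℕ → A) (n : ℕ) : ℕ :=
  {w | w ∈ lang x ∧ w.length = n}.ncard

open Pool.Agent.H17.UFB

lemma fac_len {A : Type} (x : ℕ → A) (i n : ℕ) : (fac x i n).length = n := by simp [fac]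

lemma fac_eq {A : Type} (x : ℕ → A) (i j n : ℕ) :
    fac x i n = fac x j n ↔ ∀ s, s < n → x (i + s) = x (j + s) := by
  unfold fac
  rw [List.map_inj_left]
  simp

lemma fac_sub {A : Type} (x : ℕ → A) (p L k n : ℕ) (h : k + n ≤ L) :
    ((fac x p L).drop k).take n = fac x (p + k) n := by
  apply List.ext_getElem
  · simp [fac]; omega
  · intro s h1 h2
    simp [fac, add_assoc]

lemma occ_eq (x : ℕ → Bool) (p L i0 n : ℕ) :
    (occ (fac x p L) (fac x i0 n) : ℝ) =
      ∑ k ∈ Finset.range (L + 1 - n), ind (∀ s, s < n → x (p + k + s) = x (i0 + s)) := by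
  classical
  unfold occ
  simp only [fac_len]
  have : (Finset.range (L + 1)).filter (fun k => k + n ≤ L ∧ ((fac x p L).drop k).take n = fac x i0 n)
      = (Finset.range (L + 1 - n)).filter (fun k => ∀ s, s < n → x (p + k + s) = x (i0 + s)) := by
    ext k
    simp only [Finset.mem_filter, Finset.mem_range]
    constructor
    · rintro ⟨-, h1, h2⟩
      rw [fac_sub x p L k n h1, fac_eq] at h2
      exact ⟨by omega, h2⟩
    · rintro ⟨h1, h2⟩
      have h3 : k + n ≤ L := by omega
      rw [fac_sub x p L k n h3, fac_eq]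
      exact ⟨by omega, h3, h2⟩
  rw [this, Finset.card_filter]
  push_cast
  refine Finset.sum_congr rfl (fun k _ => ?_)
  unfold ind
  congr

theorem result : ∃ x : ℕ → Bool, UniformlyFactorBalanced x ∧
    ∀ K : ℕ, ∃ n : ℕ, 1 ≤ n ∧ K * n < complexity x n := by
  refine ⟨y 0, ⟨4 * (243 * 80), by norm_num, ?_⟩, fun K => ?_⟩
  · rintro w ⟨i0, n, rfl⟩ u ⟨p, L, rfl⟩ v ⟨q, L', rfl⟩ hl
    rw [fac_len, fac_len] at hl
    subst hl
    obtain ⟨δ, -, hδ⟩ := disc_occ i0 n
    have key : ∀ p, |(occ (fac (y 0) p L) (fac (y 0) i0 n) : ℝ) - δ * (L + 1 - n : ℕ)|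
        ≤ 2 * (243 * 80) := by
      intro p
      have a := abs_le.1 (hδ p)
      have b := abs_le.1 (hδ (p + (L + 1 - n)))
      rw [Finset.sum_range_add] at b
      rw [occ_eq, abs_le]
      push_cast at a b ⊢
      constructor <;> linarith [a.1, a.2, b.1, b.2]
    have a := abs_le.1 (key p)
    have b := abs_le.1 (key q)
    have : |((occ (fac (y 0) p L) (fac (y 0) i0 n) : ℝ) - (occ (fac (y 0) q L) (fac (y 0) i0 n) : ℝ))|
        ≤ 4 * (243 * 80) := by
      rw [abs_le]; constructor <;> linarith [a.1, a.2, b.1, b.2]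
    exact_mod_cast this
  · classical
    have h0 : 0 < 3 ^ (2 * (18 * K)) := by positivity
    refine ⟨18 * 3 ^ (2 * (18 * K)), by omega, ?_⟩
    set g := 18 * K with hg
    set n := 18 * 3 ^ (2 * g) with hn
    have fin : {w | w ∈ lang (y 0) ∧ w.length = n}.Finite :=
      (List.finite_length_eq Bool n).subset (fun w hw => hw.2)
    let F : ℕ × ℕ → List Bool := fun z => fac (y 0) (3 ^ (2 * g + 2) * (3 ^ (2 * z.2) - 1) + z.1) n
    let T : Finset (ℕ × ℕ) := Finset.range (3 ^ (2 * g)) ×ˢ Finset.range (g + 1)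
    have inj : Set.InjOn F T := by
      intro z hz z' hz' e
      simp only [T, Finset.coe_product, Set.mem_prod, Finset.coe_range, Set.mem_Iio] at hz hz'
      have := distinct g z.1 z.2 z'.1 z'.2 hz.1 hz'.1 (by omega) (by omega) ((fac_eq _ _ _ _).1 e)
      exact Prod.ext this.1 this.2
    have sub : ((T.image F : Finset (List Bool)) : Set (List Bool)) ⊆
        {w | w ∈ lang (y 0) ∧ w.length = n} := by
      intro w hw
      simp only [Finset.coe_image, Set.mem_image] at hw
      obtain ⟨z, -, rfl⟩ := hw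
      exact ⟨⟨_, _, rfl⟩, fac_len _ _ _⟩
    have le := Set.ncard_le_ncard sub fin
    rw [Set.ncard_coe_finset, Finset.card_image_of_injOn inj] at le
    simp only [T, Finset.card_product, Finset.card_range] at le
    unfold complexity
    have : K * n < 3 ^ (2 * g) * (g + 1) := by
      rw [hn, hg]; nlinarith
    omega

end Pool.Agent.Results.MP_9e6215_co.Exists
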